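import Mathlib

open unitInterval

namespace Pool.Agent.Results.MP_e504dd_lc.OnlyCP

/-- Fuzzy negation on the unit interval. -/
def IsNeg (N : I → I) : Prop := Antitone N ∧ N 0 = 1 ∧ N 1 = 0

/-- Fuzzy implication on the unit interval. -/
def IsImp (J : I → I → I) : Prop :=
  (∀ y, Antitone fun x => J x y) ∧ (∀ x, Monotone (J x)) ∧ J 0 0 = 1 ∧ J 1 1 = 1 ∧ J 1 0 = 0

def CP (J : I → I → I) (N : I → I) : Prop := ∀ x y, J x y = J (N y) (N x)

def LCP (J : I → I → I) (N : I → I) : Prop := ∀ x y, J (N x) y = J (N y) x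

def RCP (J : I → I → I) (N : I → I) : Prop := ∀ x y, J x (N y) = J y (N x)

/-- `N x = 1 - x ^ 2`. -/
def neg (x : I) : I := σ (x * x)

open Classical in
/-- The implication equal to `1` if `x ≤ y` and to `0` otherwise. -/
noncomputable def imp (x y : I) : I := if x ≤ y then 1 else 0

lemma neg_le (x y : I) : neg y ≤ neg x ↔ x ≤ y := by
  have hx := x.2.1
  have hy := y.2.1
  simp only [neg, ← Subtype.coe_le_coe, coe_symm_eq, Set.Icc.coe_mul, sub_le_sub_iff_left]
  exact mul_self_le_mul_self_iff hx hy |>.symm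

theorem result : ∃ (J : I → I → I) (N : I → I), IsImp J ∧ IsNeg N ∧ CP J N ∧ ¬ LCP J N ∧
    ¬ RCP J N := by
  let a : I := ⟨1 / 2, by norm_num, by norm_num⟩
  let b : I := ⟨18 / 25, by norm_num, by norm_num⟩
  refine ⟨imp, neg, ⟨fun y x x' h => ?_, fun x y y' h => ?_, ?_, ?_, ?_⟩,
    ⟨fun x y h => (neg_le x y).mpr h, ?_, ?_⟩, fun x y => ?_, fun h => ?_, fun h => ?_⟩
  · simp only [imp]
    split_ifs with h1 h2 h2
    · exact le_rfl
    · exact absurd (h.trans h1) h2
    · exact zero_le_one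
    · exact le_rfl
  · simp only [imp]
    split_ifs with h1 h2 h2
    · exact le_rfl
    · exact absurd (h1.trans h) h2
    · exact zero_le_one
    · exact le_rfl
  · simp [imp]
  · simp [imp]
  · simp [imp]
  · simp [neg]
  · simp [neg]
  · simp only [imp, neg_le]
  · have h1 : ¬ neg a ≤ b := by
      simp only [neg, ← Subtype.coe_le_coe, coe_symm_eq, Set.Icc.coe_mul, a, b]; norm_num
    have h2 : neg b ≤ a := by
      simp only [neg, ← Subtype.coe_le_coe, coe_symm_eq, Set.Icc.coe_mul, a, b]; norm_num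
    have := h a b
    simp [imp, h1, h2] at this
  · have h1 : ¬ a ≤ neg b := by
      simp only [neg, ← Subtype.coe_le_coe, coe_symm_eq, Set.Icc.coe_mul, a, b]; norm_num
    have h2 : b ≤ neg a := by
      simp only [neg, ← Subtype.coe_le_coe, coe_symm_eq, Set.Icc.coe_mul, a, b]; norm_num
    have := h a b
    simp [imp, h1, h2] at this

end Pool.Agent.Results.MP_e504dd_lc.OnlyCP
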